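import Pool.Agent.helper48.PR.SpecL

set_option autoImplicit false

namespace Pool.Agent.PR

open Matrix

theorem LFAI_qM_injective {n q : ℕ} [Fact q.Prime] {A B : GL (Fin n) ℤ_[q]} (h : qM A = qM B) :
    A = B := by
  apply Units.ext
  have hinj : Function.Injective (PadicInt.Coe.ringHom (p := q)) := Subtype.val_injective
  ext1 i j
  exact hinj (congrFun (congrFun h i) j)

theorem LFAI_qM_trace {n q : ℕ} [Fact q.Prime] (A : GL (Fin n) ℤ_[q]) :
    (qM A).trace = (((A : Matrix (Fin n) (Fin n) ℤ_[q]).trace : ℤ_[q]) : ℚ_[q]) := by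
  unfold qM Matrix.trace
  have := map_sum (PadicInt.Coe.ringHom (p := q)) (fun i => (A : Matrix (Fin n) (Fin n) ℤ_[q]) i i)
    Finset.univ
  exact this.symm

theorem LFAI_qM_mul {n q : ℕ} [Fact q.Prime] (A B : GL (Fin n) ℤ_[q]) : qM (A * B) = qM A * qM B := by
  unfold qM
  rw [Units.val_mul, Matrix.map_mul]

theorem LFAI_qM_one {n q : ℕ} [Fact q.Prime] : qM (1 : GL (Fin n) ℤ_[q]) = 1 := by
  unfold qM
  rw [Units.val_one, Matrix.map_one _ (map_zero _) (map_one _)]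

/-- an element of the kernel of one representation is in the kernel of all -/
theorem LFAI_ker (hT : TRACE_stmt) (hS : LSPAN_stmt) (n : ℕ) (hn : 3 ≤ n) (Λ : Type) [Group Λ]
    (hfg : Group.FG Λ) (hq : QuotLe Λ (SLZ n)) (f : Fam n Λ) (hinf : ∀ q, (Set.range (f q)).Infinite)
    (p : Nat.Primes) (l : Λ) (hl : f p l = 1) (q : Nat.Primes) : f q l = 1 := by
  obtain ⟨t, ht, h2⟩ := hT n hn Λ hfg hq (p : ℕ) (q : ℕ) (f p) (f q) (hinf p) (hinf q)
  have htl : ∀ μ, t (μ * l) = t μ := by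
    intro μ
    have h3 : ((t (μ * l) : ℚ) : ℚ_[(p : ℕ)]) = ((t μ : ℚ) : ℚ_[(p : ℕ)]) := by
      rw [← ht, ← ht, map_mul, hl, mul_one]
    exact_mod_cast h3
  have htl' : ∀ μ, t (μ * l)⁻¹ = t μ⁻¹ := by
    intro μ
    have h3 : ((t (μ * l)⁻¹ : ℚ) : ℚ_[(p : ℕ)]) = ((t μ⁻¹ : ℚ) : ℚ_[(p : ℕ)]) := by
      rw [← ht, ← ht, _root_.mul_inv_rev, map_mul, map_inv (f p) l, hl, inv_one, one_mul]
    exact_mod_cast h3
  have htr : ∀ μ, (qM (f q μ) * (qM (f q l) - 1)).trace = 0 := by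
    intro μ
    rw [mul_sub, mul_one, ← LFAI_qM_mul, ← map_mul, Matrix.trace_sub, LFAI_qM_trace, LFAI_qM_trace,
      sub_eq_zero]
    rcases h2 with h2 | h2
    · rw [h2, h2, htl]
    · rw [h2, h2, htl']
  have hall : ∀ B : Matrix (Fin n) (Fin n) ℚ_[(q : ℕ)], (B * (qM (f q l) - 1)).trace = 0 := by
    intro B
    have hB : B ∈ Submodule.span ℚ_[(q : ℕ)] (Set.range fun l => qM (f q l)) := by
      rw [hS n hn Λ hq f hinf q]; trivial
    induction hB using Submodule.span_induction with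
    | mem B h => obtain ⟨μ, rfl⟩ := h; exact htr μ
    | zero => simp
    | add B C _ _ hB hC => rw [add_mul, Matrix.trace_add, hB, hC, add_zero]
    | smul c B _ hB => rw [smul_mul_assoc, Matrix.trace_smul, hB, smul_zero]
  have hz : qM (f q l) - 1 = 0 := by
    ext i j
    have h3 := hall (Matrix.single j i 1)
    rw [Matrix.trace_single_mul, one_smul] at h3
    exact h3
  apply LFAI_qM_injective
  rw [LFAI_qM_one, ← sub_eq_zero, hz]

theorem LFAI (hT : TRACE_stmt) (hS : LSPAN_stmt) (hC : LCSP_stmt) : LFAI_stmt := by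
  intro n hn Λ _ hfg hq hrf f hinf p
  rw [injective_iff_map_eq_one]
  intro l hl
  by_contra hne
  obtain ⟨H, hH, hlH⟩ := hrf l hne
  have : H.FiniteIndex := ⟨hH⟩
  obtain ⟨m, hm, hπ⟩ := hC n hn Λ hq (Λ ⧸ H.normalCore) (QuotientGroup.mk' H.normalCore) f hinf
  have h1 : (QuotientGroup.mk' H.normalCore) l = 1 := by
    apply hπ
    intro q i j
    rw [LFAI_ker hT hS n hn Λ hfg hq f hinf p l hl q, Units.val_one, sub_self]
    exact dvd_zero _
  rw [QuotientGroup.mk'_apply, QuotientGroup.eq_one_iff] at h1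
  exact hlH (H.normalCore_le h1)

end Pool.Agent.PR
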