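import Pool.Agent.helper48.PR.SpecL

set_option autoImplicit false

namespace Pool.Agent.PR

open Matrix

theorem LLAT_entry {n : ℕ} {F : Type} [Field F] (x y : Matrix (Fin n) (Fin n) F) (i j k b : Fin n) :
    ((x * Matrix.single i j (1 : F) * y : Matrix (Fin n) (Fin n) F) : Matrix (Fin n) (Fin n) F) k b =
      x k i * y j b := by
  rw [Matrix.mul_apply]
  rw [Finset.sum_eq_single j]
  · rw [Matrix.mul_single_apply_same, mul_one]
  · intro l _ hl
    rw [Matrix.mul_single_apply_of_ne _ _ _ _ _ hl, zero_mul]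
  · intro h; exact absurd (Finset.mem_univ j) h

theorem LLAT : LLAT_stmt := by
  intro n hn q _ x y hxy hyx hZ
  classical
  have hn0 : 0 < n := by omega
  have : Nonempty (Fin n × Fin n) := ⟨(⟨0, hn0⟩, ⟨0, hn0⟩)⟩
  obtain ⟨⟨a, b⟩, hab⟩ := Finite.exists_max (fun p : Fin n × Fin n => ‖y p.1 p.2‖)
  have hmax : ∀ i j, ‖y i j‖ ≤ ‖y a b‖ := fun i j => hab (i, j)
  have hc : y a b ≠ 0 := by
    intro h0
    have hy0 : y = 0 := by
      ext i j
      have := hmax i j
      rw [h0, norm_zero] at this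
      exact norm_le_zero_iff.1 this
    rw [hy0, mul_zero] at hxy
    have := congrFun (congrFun hxy ⟨0, hn0⟩) ⟨0, hn0⟩
    simp at this
  set c : ℚ_[q] := y a b with hcdef
  -- the entries of c • x are integral
  have hx : ∀ k i, ‖c * x k i‖ ≤ 1 := by
    intro k i
    by_cases hia : i = a
    · subst hia
      obtain ⟨j, hj⟩ : ∃ j : Fin n, j ≠ i := by
        have : Nontrivial (Fin n) := Fin.nontrivial_iff_two_le.2 (by omega)
        exact exists_ne i
      obtain ⟨Z₁, h1⟩ := hZ i j hj.symm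
      obtain ⟨Z₂, h2⟩ := hZ j i hj
      have h3 : x * Matrix.single i i 1 * y = (Z₁ * Z₂).map (PadicInt.Coe.ringHom (p := q)) := by
        rw [Matrix.map_mul, ← h1, ← h2]
        calc x * Matrix.single i i 1 * y
            = x * (Matrix.single i j 1 * Matrix.single j i 1) * y := by
              rw [Matrix.single_mul_single_same, mul_one]
          _ = x * Matrix.single i j 1 * (y * x) * Matrix.single j i 1 * y := by
              rw [hyx, mul_one]; simp only [mul_assoc]
          _ = _ := by simp only [mul_assoc]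
      have h4 := congrFun (congrFun h3 k) b
      rw [LLAT_entry] at h4
      have h5 : c * x k i = ((Z₁ * Z₂) k b : ℤ_[q]) := by
        rw [mul_comm, hcdef]; exact h4
      rw [h5]
      exact PadicInt.norm_le_one _
    · obtain ⟨Z, h1⟩ := hZ i a hia
      have h4 := congrFun (congrFun h1 k) b
      rw [LLAT_entry] at h4
      have h5 : c * x k i = ((Z k b : ℤ_[q]) : ℚ_[q]) := by
        rw [mul_comm, hcdef]; exact h4
      rw [h5]
      exact PadicInt.norm_le_one _
  have hy : ∀ k i, ‖c⁻¹ * y k i‖ ≤ 1 := by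
    intro k i
    rw [norm_mul, norm_inv, inv_mul_le_iff₀ (norm_pos_iff.2 hc), mul_one]
    exact hmax k i
  set X : Matrix (Fin n) (Fin n) ℤ_[q] := fun k i => ⟨c * x k i, hx k i⟩ with hX
  set Y : Matrix (Fin n) (Fin n) ℤ_[q] := fun k i => ⟨c⁻¹ * y k i, hy k i⟩ with hY
  have hXm : X.map (PadicInt.Coe.ringHom (p := q)) = c • x := by
    ext k i; rfl
  have hYm : Y.map (PadicInt.Coe.ringHom (p := q)) = c⁻¹ • y := by
    ext k i; rfl
  have hinj : Function.Injective (PadicInt.Coe.ringHom (p := q)) := Subtype.val_injective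
  have hminj : Function.Injective
      (fun A : Matrix (Fin n) (Fin n) ℤ_[q] => A.map (PadicInt.Coe.ringHom (p := q))) := by
    intro A B h
    ext1 i j
    exact hinj (congrFun (congrFun h i) j)
  have hone : (1 : Matrix (Fin n) (Fin n) ℤ_[q]).map (PadicInt.Coe.ringHom (p := q)) = 1 := by
    rw [Matrix.map_one _ (map_zero _) (map_one _)]
  refine ⟨c, X, Y, hc, ?_, ?_, hXm, hYm⟩
  · apply hminj
    show (X * Y).map _ = (1 : Matrix (Fin n) (Fin n) ℤ_[q]).map _
    rw [Matrix.map_mul, hXm, hYm, smul_mul_smul_comm, hxy, mul_inv_cancel₀ hc, one_smul, hone]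
  · apply hminj
    show (Y * X).map _ = (1 : Matrix (Fin n) (Fin n) ℤ_[q]).map _
    rw [Matrix.map_mul, hXm, hYm, smul_mul_smul_comm, hyx, inv_mul_cancel₀ hc, one_smul, hone]

end Pool.Agent.PR
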