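import Pool.Agent.helper48.PR.SpecL

set_option autoImplicit false

namespace Pool.Agent.PR

open Matrix

theorem LRK1_field {n : ℕ} {F : Type} [Field F] (A : Matrix (Fin n) (Fin n) F) (h : A.rank = 1) :
    ∃ u v : Fin n → F, ∀ i j, A i j = u i * v j := by
  unfold Matrix.rank at h
  obtain ⟨w, hw, hall⟩ := finrank_eq_one_iff'.1 h
  have h1 : ∀ j, ∃ c : F, ∀ i, A i j = (w : Fin n → F) i * c := by
    intro j
    obtain ⟨c, hc⟩ := hall ⟨A.mulVecLin (Pi.single j 1), ⟨_, rfl⟩⟩
    refine ⟨c, fun i => ?_⟩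
    have h2 := congrFun (congrArg Subtype.val hc) i
    simp only [Matrix.mulVecLin_apply, Matrix.mulVec_single_one] at h2
    have h3 : c * (w : Fin n → F) i = A i j := h2
    rw [← h3, mul_comm]
  choose c hc using h1
  exact ⟨w, c, fun i j => hc j i⟩

theorem LRK1 : LRK1_stmt := by
  intro n F _ _ B hB
  obtain ⟨u, v, huv⟩ := LRK1_field _ hB
  have hmin : ∀ i j k l, B i j * B k l = B i l * B k j := by
    intro i j k l
    have h1 : ∀ i j, ((B i j : ℤ) : F) = u i * v j := fun i j => huv i j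
    have h2 : ((B i j * B k l : ℤ) : F) = ((B i l * B k j : ℤ) : F) := by
      push_cast
      rw [h1, h1, h1, h1]; ring
    exact_mod_cast h2
  by_cases hz : B = 0
  · refine ⟨0, 0, ?_⟩
    rw [hz]
    ext i j
    simp [Matrix.vecMulVec_apply]
  have hex : ∃ i₀ j₀, B i₀ j₀ ≠ 0 := by
    by_contra hcon
    push Not at hcon
    exact hz (Matrix.ext hcon)
  obtain ⟨i₀, j₀, h0⟩ := hex
  obtain ⟨d, hd⟩ := (IsPrincipalIdealRing.principal (Ideal.span (Set.range (B i₀)))).principal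
  have hdm : d ∈ Ideal.span (Set.range (B i₀)) := by
    rw [hd]; exact Submodule.mem_span_singleton_self d
  obtain ⟨ψ, hψ⟩ := Ideal.mem_span_range_iff_exists_fun.1 hdm
  have hφ : ∀ j, ∃ φ : ℤ, B i₀ j = φ * d := by
    intro j
    have h1 : B i₀ j ∈ Ideal.span (Set.range (B i₀)) := Ideal.subset_span ⟨j, rfl⟩
    rw [hd] at h1
    obtain ⟨c, hc⟩ := Submodule.mem_span_singleton.1 h1
    exact ⟨c, hc.symm⟩
  choose φ hφ using hφ
  have hd0 : d ≠ 0 := by
    rintro rfl
    exact h0 (by rw [hφ, mul_zero])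
  refine ⟨fun i => ∑ l, B i l * ψ l, φ, ?_⟩
  ext i j
  rw [Matrix.vecMulVec_apply]
  apply mul_right_cancel₀ hd0
  calc B i j * d = ∑ l, B i j * (ψ l * B i₀ l) := by rw [← Finset.mul_sum, hψ]
    _ = ∑ l, (B i l * ψ l) * (φ j * d) := by
        refine Finset.sum_congr rfl fun l _ => ?_
        rw [← hφ j]
        have := hmin i j i₀ l
        linear_combination ψ l * this
    _ = (∑ l, B i l * ψ l) * φ j * d := by rw [← Finset.sum_mul]; ring

end Pool.Agent.PR
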