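import Pool.Agent.helper48.PR.SpecL

set_option autoImplicit false

namespace Pool.Agent.PR

open Matrix

/-- extension of scalars of a linear functional on matrices -/
noncomputable def LSPQ_ext {n : ℕ} {k F : Type} [Field k] [Field F] [Algebra k F]
    (f : Matrix (Fin n) (Fin n) k →ₗ[k] k) : Matrix (Fin n) (Fin n) F →ₗ[F] F where
  toFun A := ∑ i, ∑ j, algebraMap k F (f (Matrix.single i j 1)) * A i j
  map_add' A B := by
    simp only [Matrix.add_apply, mul_add, Finset.sum_add_distrib]
  map_smul' c A := by
    simp only [Matrix.smul_apply, smul_eq_mul, RingHom.id_apply, Finset.mul_sum]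
    refine Finset.sum_congr rfl fun i _ => Finset.sum_congr rfl fun j _ => ?_
    ring

theorem LSPQ_ext_map {n : ℕ} {k F : Type} [Field k] [Field F] [Algebra k F]
    (f : Matrix (Fin n) (Fin n) k →ₗ[k] k) (A : Matrix (Fin n) (Fin n) k) :
    LSPQ_ext (F := F) f (A.map (algebraMap k F)) = algebraMap k F (f A) := by
  have h1 : f A = ∑ i, ∑ j, f (Matrix.single i j 1) * A i j := by
    conv_lhs => rw [Matrix.matrix_eq_sum_single A]
    rw [map_sum]
    refine Finset.sum_congr rfl fun i _ => ?_
    rw [map_sum]
    refine Finset.sum_congr rfl fun j _ => ?_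
    have : Matrix.single i j (A i j) = A i j • Matrix.single i j (1 : k) := by
      rw [Matrix.smul_single, smul_eq_mul, mul_one]
    rw [this, map_smul, smul_eq_mul, mul_comm]
  rw [h1, map_sum]
  show ∑ i, ∑ j, algebraMap k F (f (Matrix.single i j 1)) * algebraMap k F (A i j) = _
  refine Finset.sum_congr rfl fun i _ => ?_
  rw [map_sum]
  refine Finset.sum_congr rfl fun j _ => ?_
  rw [map_mul]

theorem LSPQ : LSPQ_stmt := by
  intro n k F _ _ _ Λ _ ρ r x y hxy hyx hρ hspan
  by_contra hne
  obtain ⟨f, hf, hker⟩ := Submodule.exists_le_ker_of_lt_top _ (lt_top_iff_ne_top.2 hne)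
  have hfr : ∀ l, f (r l) = 0 := fun l => hker (Submodule.subset_span ⟨l, rfl⟩)
  have h0 : ∀ B ∈ Submodule.span F (Set.range ρ), LSPQ_ext (F := F) f (y * B * x) = 0 := by
    intro B hB
    induction hB using Submodule.span_induction with
    | mem B h =>
      obtain ⟨l, rfl⟩ := h
      have : y * ρ l * x = (r l).map (algebraMap k F) := by
        rw [hρ l]
        calc y * (x * (r l).map (algebraMap k F) * y) * x
            = (y * x) * (r l).map (algebraMap k F) * (y * x) := by simp only [mul_assoc]
          _ = _ := by rw [hyx, one_mul, mul_one]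
      rw [this, LSPQ_ext_map, hfr, map_zero]
    | zero => simp
    | add B C _ _ hB hC => rw [mul_add, add_mul, map_add, hB, hC, add_zero]
    | smul c B _ hB => rw [mul_smul_comm, smul_mul_assoc, map_smul, hB, smul_zero]
  have h1 : ∀ A : Matrix (Fin n) (Fin n) k, f A = 0 := by
    intro A
    have h2 := h0 (x * A.map (algebraMap k F) * y) (by rw [hspan]; trivial)
    have h3 : y * (x * A.map (algebraMap k F) * y) * x = A.map (algebraMap k F) := by
      calc y * (x * A.map (algebraMap k F) * y) * x
          = (y * x) * A.map (algebraMap k F) * (y * x) := by simp only [mul_assoc]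
        _ = _ := by rw [hyx, one_mul, mul_one]
    rw [h3, LSPQ_ext_map] at h2
    exact (map_eq_zero (algebraMap k F)).1 h2
  exact hf (LinearMap.ext h1)

end Pool.Agent.PR
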