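import Pool.Agent.helper5.PR.SpecX
import Pool.Agent.helper71.PR.S_SAT

/-!
# Project pr, module X-CSI: congruence subgroup property of `SL(n, ℤ[1/m])`
-/

set_option autoImplicit false

namespace Pool.Agent.PR

open Matrix

theorem X_CSI_x_pow {n m : ℕ} (i j : Fin n) (h : i ≠ j) (a : ZI m) (t : ℕ) :
    (S_SAT_x i j h a) ^ t = S_SAT_x i j h ((t : ZI m) * a) := by
  induction t with
  | zero =>
    apply Subtype.ext
    change (1 : Matrix (Fin n) (Fin n) (ZI m)) = Matrix.transvection i j (((0 : ℕ) : ZI m) * a)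
    rw [Nat.cast_zero, zero_mul, Matrix.transvection_zero]
  | succ t ih =>
    rw [pow_succ, ih]
    apply Subtype.ext
    change Matrix.transvection i j ((t : ZI m) * a) * Matrix.transvection i j a =
      Matrix.transvection i j (((t + 1 : ℕ) : ZI m) * a)
    rw [Matrix.transvection_mul_transvection_same i j h]
    congr 1
    push_cast
    ring

theorem X_CSI_inc_rat {n m : ℕ} (γ : SLZ n) (i j : Fin n) :
    ratM (incI n m γ) i j = ((γ : Matrix (Fin n) (Fin n) ℤ) i j : ℚ) := by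
  change (((algebraMap ℤ (ZI m)) ((γ : Matrix (Fin n) (Fin n) ℤ) i j) : ZI m) : ℚ) = _
  rw [eq_intCast]
  push_cast
  rfl

/-- a homomorphism to a finite group kills the elementary matrices of a level prime to `m` -/
theorem X_CSI_elem {n m : ℕ} (hm : 1 ≤ m) (Q : Type) [Group Q] [Finite Q] (φ : SLI n m →* Q) :
    ∃ k : ℕ, 1 ≤ k ∧ k.Coprime m ∧ ∀ (i j : Fin n) (h : i ≠ j) (a : ZI m),
      φ (S_SAT_x i j h ((k : ZI m) * a)) = 1 := by
  obtain ⟨t, k₁, k, hQ, ⟨c, hc⟩, hk, hk1⟩ := S_SAT_split m (Nat.card Q) Nat.card_pos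
  refine ⟨k, hk1, hk, fun i j h a => ?_⟩
  have hm0 : (m : ℚ) ≠ 0 := by exact_mod_cast (by omega : m ≠ 0)
  set w : ZI m := ⟨((1 : ℤ) : ℚ) * ((m : ℚ)⁻¹) ^ t, S_SAT_frac m 1 t⟩ with hw
  have h1 : (m : ZI m) ^ t * w = 1 := by
    apply Subtype.ext
    push_cast
    rw [hw]
    simp only [Int.cast_one, one_mul]
    rw [← mul_pow, mul_inv_cancel₀ hm0, one_pow]
  have h2 : (k : ZI m) * a = ((Nat.card Q : ℕ) : ZI m) * ((c : ZI m) * w * a) := by
    rw [hQ]
    have h3 : (m : ZI m) ^ t = (k₁ : ZI m) * c := by exact_mod_cast congrArg (Nat.cast : ℕ → ZI m) hc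
    push_cast
    calc (k : ZI m) * a = k * a * ((m : ZI m) ^ t * w) := by rw [h1, mul_one]
      _ = _ := by rw [h3]; ring
  rw [h2, ← X_CSI_x_pow, map_pow, pow_card_eq_one']

theorem X_CSI (hRED : X_RED_stmt) (hRSJ : X_RSJ_stmt) (hALL : M_ALL_stmt) (hSAT : S_SAT_stmt)
    (hZI : S_ZI_stmt) : X_CSI_stmt := by
  intro n hn m hm Q _ _ φ
  obtain ⟨k, hk1, hkm, hel⟩ := X_CSI_elem (n := n) hm Q φ
  obtain ⟨r, hr1, hr2⟩ := hRED n m k hm hk1 hkm
  have hsurj := hRSJ n k hk1
  have hE : Elem (k : ℤ) (φ.comp (incI n m)).ker := by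
    refine ⟨inferInstance, fun g i j hij hg => ?_⟩
    rw [MonoidHom.mem_ker, MonoidHom.comp_apply]
    have h1 : incI n m g = S_SAT_x i j hij ((k : ZI m) * 1) := by
      apply S_SAT_rat_inj
      rw [S_SAT_rat_x]
      ext a b
      rw [X_CSI_inc_rat, hg, mul_one, Matrix.transvection, Matrix.add_apply, Matrix.add_apply]
      push_cast
      congr 1
      · rw [Matrix.one_apply, Matrix.one_apply]; split_ifs <;> simp
      · rw [Matrix.single_apply, Matrix.single_apply]; split_ifs <;> simp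
    rw [h1, hel]
  have hker : (redZ n k).ker ≤ (φ.comp (incI n m)).ker := hALL n hn k hk1 _ hE
  -- factor through the reduction
  obtain ⟨φ', hφ'⟩ : ∃ φ' : SLd n k →* Q, ∀ γ, φ' (redZ n k γ) = φ (incI n m γ) := by
    refine ⟨(redZ n k).liftOfSurjective hsurj ⟨φ.comp (incI n m), hker⟩, fun γ => ?_⟩
    have h1 := (redZ n k).liftOfRightInverse_comp_apply _ (Function.rightInverse_surjInv hsurj)
      ⟨φ.comp (incI n m), hker⟩ γ
    exact h1
  have hcg : ∀ (i j : Fin n) (h : i ≠ j) (a : ZI m), CgI k (S_SAT_x i j h ((k : ZI m) * a)) := by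
    intro i j h a i' j'
    rw [S_SAT_rat_x, Matrix.transvection, Matrix.add_apply, add_sub_cancel_left,
      Matrix.single_apply]
    split_ifs
    · exact ⟨a, by push_cast; ring⟩
    · exact ⟨0, by push_cast; ring⟩
  have hinc : ∀ γ, incI n m γ ∈ φ.eqLocus (φ'.comp r) := by
    intro γ
    change φ (incI n m γ) = φ' (r (incI n m γ))
    rw [hr1, hφ']
  have htop : φ.eqLocus (φ'.comp r) = ⊤ := by
    refine hSAT n hn m hm _ ?_ ?_ k hk1 hkm ?_
    · have h1 : (φ.eqLocus (φ'.comp r)).comap (incI n m) = ⊤ := by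
        rw [eq_top_iff]
        intro γ _
        exact hinc γ
      rw [h1]
      infer_instance
    · intro k' _ _ γ
      refine ⟨incI n m γ, hinc γ, fun i j => ⟨0, ?_⟩⟩
      rw [X_CSI_inc_rat]
      push_cast
      ring
    · intro x i j a hij hx
      have h1 : x = S_SAT_x i j hij ((k : ZI m) * a) := by
        apply Subtype.ext
        exact hx
      rw [h1]
      change φ _ = φ' (r _)
      rw [hel, (hr2 _).2 (hcg i j hij a), map_one]
  have hall : ∀ x, φ x = φ' (r x) := fun x => by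
    have h1 : x ∈ φ.eqLocus (φ'.comp r) := by rw [htop]; exact Subgroup.mem_top x
    exact h1
  refine ⟨k, hk1, hkm, fun x hx => ?_, fun x => ?_⟩
  · rw [hall, (hr2 x).2 hx, map_one]
  · obtain ⟨γ, hγ⟩ := hsurj (r x)
    refine ⟨γ, ?_⟩
    rw [hall x, ← hγ, hφ']

end Pool.Agent.PR
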