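import Pool.Agent.helper5.PR.SpecX
import Pool.Agent.helper71.PR.S_SAT

/-!
# Project pr, module X-LEV: the bounded part of the levels
-/

set_option autoImplicit false

namespace Pool.Agent.PR

open Matrix

theorem X_LEV_pos {n : ℕ} (hn : 3 ≤ n) {Λ : Type} [Group Λ] (S : Sys (SLZ n) Λ)
    (M : FiniteIndexNormalSubgroup Λ) : 0 < lev hn S M := by
  haveI : Finite (Λ ⧸ M.toSubgroup) := Subgroup.finite_quotient_of_finiteIndex
  exact orderOf_pos _

theorem X_LEV_mono {n : ℕ} (hn : 3 ≤ n) {Λ : Type} [Group Λ] (S : Sys (SLZ n) Λ)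
    (M M' : FiniteIndexNormalSubgroup Λ) (h : M ≤ M') : lev hn S M' ∣ lev hn S M := by
  unfold lev
  apply orderOf_dvd_of_pow_eq_one
  rw [← map_pow]
  have h1 : S.g M (e01 n hn ^ orderOf (S.g M (e01 n hn))) = ((1 : Λ) : Λ ⧸ M.toSubgroup) := by
    rw [map_pow, pow_orderOf_eq_one]
    rfl
  have h2 := S.compat M M' h _ 1 h1
  rw [h2]
  rfl

theorem X_LEV : X_LEV_stmt := by
  classical
  intro n hn Λ _ S m hm hU
  -- the exponents
  have hex : ∀ q : ℕ, ∃ e : ℕ, q.Prime → q ∣ m → (∃ M, q ^ e ∣ lev hn S M) ∧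
      ∀ M, ¬ q ^ (e + 1) ∣ lev hn S M := by
    intro q
    by_cases hq : q.Prime ∧ q ∣ m
    · have h1 := hU q hq.1 hq.2
      unfold Unb at h1
      push Not at h1
      have h2 := Nat.find_spec h1
      have h3 : Nat.find h1 ≠ 0 := by
        intro h0
        rw [h0] at h2
        exact h2 ⟨⊤, inferInstance, inferInstance⟩ (by rw [pow_zero]; exact one_dvd _)
      obtain ⟨e, he⟩ := Nat.exists_eq_succ_of_ne_zero h3
      refine ⟨e, fun _ _ => ⟨?_, ?_⟩⟩
      · have h4 := Nat.find_min h1 (m := e) (by omega)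
        push Not at h4
        exact h4
      · rw [he] at h2
        exact h2
    · exact ⟨0, fun h1 h2 => absurd ⟨h1, h2⟩ hq⟩
  choose e he using hex
  have hmem : ∀ q ∈ m.primeFactors, q.Prime ∧ q ∣ m := fun q hq =>
    ⟨Nat.prime_of_mem_primeFactors hq, Nat.dvd_of_mem_primeFactors hq⟩
  refine ⟨∏ q ∈ m.primeFactors, q ^ e q, ?_, ?_, ?_, ?_⟩
  · exact Finset.prod_pos fun q hq => pow_pos (hmem q hq).1.pos _
  · intro q hq hqd
    obtain ⟨p, hp, hqp⟩ := (Nat.Prime.prime hq).exists_mem_finset_dvd hqd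
    have h1 : q ∣ p := hq.dvd_of_dvd_pow hqp
    have h2 : q = p := (Nat.prime_dvd_prime_iff_eq hq (hmem p hp).1).1 h1
    rw [h2]
    exact (hmem p hp).2
  · intro M
    obtain ⟨s, b, j, h1, h2, h3, h4⟩ := S_SAT_split m (lev hn S M) (X_LEV_pos hn S M)
    refine ⟨j, h4, h3, ?_⟩
    rw [h1, mul_comm b j]
    refine Nat.mul_dvd_mul_left j ?_
    rw [Nat.dvd_iff_prime_pow_dvd_dvd]
    intro p k hp hpk
    rcases Nat.eq_zero_or_pos k with hk | hk
    · rw [hk, pow_zero]; exact one_dvd _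
    · have hpm : p ∣ m := by
        have h5 : p ∣ m ^ s := (dvd_pow_self p hk.ne').trans (hpk.trans h2)
        exact hp.dvd_of_dvd_pow h5
      have h6 : k ≤ e p := by
        by_contra h7
        have h8 : p ^ (e p + 1) ∣ lev hn S M := by
          refine (pow_dvd_pow p (by omega : e p + 1 ≤ k)).trans (hpk.trans ?_)
          rw [h1]
          exact Dvd.intro _ rfl
        exact (he p hp hpm).2 M h8
      have h7 : p ∈ m.primeFactors := Nat.mem_primeFactors.2 ⟨hp, hpm, by omega⟩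
      exact (pow_dvd_pow p h6).trans (Finset.dvd_prod_of_mem (fun q => q ^ e q) h7)
  · have h1 : ∀ s : Finset ℕ, s ⊆ m.primeFactors →
        ∃ M₁ : FiniteIndexNormalSubgroup Λ, ∀ q ∈ s, q ^ e q ∣ lev hn S M₁ := by
      intro s
      induction s using Finset.induction_on with
      | empty =>
        intro _
        exact ⟨⟨⊤, inferInstance, inferInstance⟩, fun q hq => absurd hq (Finset.notMem_empty q)⟩
      | insert a s ha ih =>
        intro hs
        obtain ⟨M₁, hM₁⟩ := ih ((Finset.subset_insert a s).trans hs)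
        have ham := hmem a (hs (Finset.mem_insert_self a s))
        obtain ⟨⟨M₂, hM₂⟩, -⟩ := he a ham.1 ham.2
        refine ⟨M₁ ⊓ M₂, fun q hq => ?_⟩
        rcases Finset.mem_insert.1 hq with h2 | h2
        · rw [h2]
          exact hM₂.trans (X_LEV_mono hn S _ _ inf_le_right)
        · exact (hM₁ q h2).trans (X_LEV_mono hn S _ _ inf_le_left)
    obtain ⟨M₁, hM₁⟩ := h1 m.primeFactors (Finset.Subset.refl _)
    refine ⟨M₁, fun M hM => ?_⟩
    refine Finset.prod_dvd_of_isRelPrime ?_ fun q hq => (hM₁ q hq).trans (X_LEV_mono hn S _ _ hM)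
    intro p hp q hq hpq
    have h2 : Nat.Coprime (p ^ e p) (q ^ e q) :=
      Nat.Coprime.pow _ _ ((Nat.coprime_primes (hmem p hp).1 (hmem q hq).1).2 hpq)
    exact Nat.coprime_iff_isRelPrime.1 h2

end Pool.Agent.PR
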